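import Pool.Agent.H19.Saw.Div
import Pool.Graph.R_seed8.TH546.PC.Point
import Pool.Graph.R_seed8.W387.Q.Hyp
import Pool.Graph.R_seed8.TH508.LT.Gap2
import Pool.Graph.R_pool_sql_team_seeded_efc1946e.K1H72.PL.Expo
import Pool.Graph.R_pool_sql_team_seeded_efc1946e.K1H72.PL.Four

/-!
Self-avoiding polygons on the square lattice: a polynomial lower bound for `p_{2n} μ^(-2n)` along
infinitely many windows of lengths, and the exponents.
-/

set_option autoImplicit false

namespace Pool.Agent.Results.MP_376faf_co.PolynomialExponents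

open Filter Topology

/-- the number of `n`-step self-avoiding walks on `ℤ²` started at the origin -/
noncomputable def c (n : ℕ) : ℕ :=
  Nat.card {f : Fin (n + 1) → ℤ × ℤ // f 0 = 0 ∧ Function.Injective f ∧
    ∀ i : Fin n, |(f i.succ).1 - (f i.castSucc).1| + |(f i.succ).2 - (f i.castSucc).2| = 1}

/-- the number of self-avoiding polygons of perimeter `2n` on `ℤ²` up to translation: the number
of injective nearest-neighbour closed loops `f : ℤ/2n → ℤ²` with `f 0 = 0`, divided by `4n` (the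
choices of the starting point and of the orientation) -/
noncomputable def p (n : ℕ) : ℝ :=
  (Nat.card {f : ZMod (2 * n) → ℤ × ℤ // f 0 = 0 ∧ Function.Injective f ∧
    ∀ i : ZMod (2 * n), |(f (i + 1)).1 - (f i).1| + |(f (i + 1)).2 - (f i).2| = 1} : ℝ)
    / (4 * (n : ℝ))

/-- the exponent at `n`: `log (p_{2n} / μ^(2n)) / log n` -/
noncomputable def g (μ : ℝ) (n : ℕ) : ℝ := Real.log (p n / μ ^ (2 * n)) / Real.log n

/-- infinitely many `n` of the parity `i` satisfy
`|p_{2n} / (μ^(2n) n^θ) - B| ≤ K (1 + |θ|) B log n / √n` -/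
def PowerLaw (μ K θ B : ℝ) (i : ℕ) : Prop :=
  ∃ᶠ n : ℕ in atTop, n % 2 = i ∧
    |p n / (μ ^ (2 * n) * (n : ℝ) ^ θ) - B| ≤ K * (1 + |θ|) * B * (Real.log n / Real.sqrt n)

lemma c_eq (n : ℕ) : (c n : ℝ) = H981.cr' n := by
  rw [H981.cr'_eq]
  unfold c H981.C H981.IsSAW
  congr 1
  apply Nat.card_congr
  apply Equiv.subtypeEquivRight
  intro f
  constructor
  · rintro ⟨h0, h1, h2⟩
    exact ⟨h0, h2, h1⟩
  · rintro ⟨h0, h2, h1⟩
    exact ⟨h0, h1, h2⟩

lemma p_eq (n : ℕ) : p n = H981.PP n := rfl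

lemma p_pos {n : ℕ} (hn : 2 ≤ n) : 0 < p n := Pool.Agent.H739K.PP_pos hn

lemma p_nonneg (n : ℕ) : 0 ≤ p n := by unfold p; positivity

/-- `p_{2n} / μ^(2n)` -/
noncomputable def v (n : ℕ) : ℝ := p n / H981.mu ^ (2 * n)

lemma v_nonneg (n : ℕ) : 0 ≤ v n := by
  have := H981.mu_pos
  have := p_nonneg n
  unfold v; positivity

lemma sl : ∃ K : ℝ, Pool.Agent.K1H72.PL.Sl v K := by
  obtain ⟨K, hK⟩ := Pool.Agent.W387.Q.f1
  have hmu := H981.mu_pos
  refine ⟨|K| / H981.mu ^ 2, fun n hn => ?_, by positivity, fun n hn => ?_⟩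
  · have := p_pos hn
    unfold v
    positivity
  · have h0 := p_pos hn
    have h1 : |p (n + 1) / p n - H981.mu ^ 2| ≤ K * (Real.log n / Real.sqrt n) := by
      rw [← Pool.Agent.TH508.LT.rN_eq hn]
      exact hK n hn
    have e : v (n + 1) / v n - 1 = (p (n + 1) / p n - H981.mu ^ 2) / H981.mu ^ 2 := by
      unfold v
      rw [show 2 * (n + 1) = 2 * n + 2 by ring, pow_add]
      field_simp
    have hf := Pool.Agent.R956.D2.f_nonneg n
    rw [e, abs_div, abs_of_pos (show 0 < H981.mu ^ 2 by positivity), div_mul_eq_mul_div]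
    apply div_le_div_of_nonneg_right _ (by positivity)
    exact h1.trans (mul_le_mul_of_nonneg_right (le_abs_self K) hf)

/-- bridges against polygons -/
lemma br_le {n : ℕ} (hn : 1 ≤ n) : H981.br' n / H981.mu ^ n ≤
    Real.sqrt 8 * H981.mu * (((n + 1 : ℕ) : ℝ) ^ (5 / 2 : ℝ) * Real.sqrt (v (n + 1))) := by
  have hmu := H981.mu_pos
  have h0 : 0 ≤ H981.br' n := by linarith [H981.one_le_br' n]
  have hn1 : (0 : ℝ) < ((n + 1 : ℕ) : ℝ) := by positivity
  have hv := v_nonneg (n + 1)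
  rw [div_le_iff₀ (by positivity)]
  apply le_of_sq_le_sq _ (by positivity)
  have e1 : (((n + 1 : ℕ) : ℝ) ^ (5 / 2 : ℝ)) ^ 2 = ((n : ℝ) + 1) ^ 5 := by
    rw [← Real.rpow_natCast, ← Real.rpow_mul hn1.le]
    norm_num
  have e2 : (Real.sqrt 8 * H981.mu * (((n + 1 : ℕ) : ℝ) ^ (5 / 2 : ℝ) * Real.sqrt (v (n + 1))) *
      H981.mu ^ n) ^ 2 = 8 * ((n : ℝ) + 1) ^ 5 * p (n + 1) := by
    rw [mul_pow, mul_pow, mul_pow, mul_pow, Real.sq_sqrt (by norm_num), Real.sq_sqrt hv, e1]
    unfold v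
    rw [show 2 * (n + 1) = 2 * n + 2 by ring, pow_add, pow_mul]
    field_simp
    ring
  rw [e2]
  exact Pool.Agent.H19.Saw.bn_sq_le5 hn

lemma not_summable : ¬ Summable (fun n : ℕ => (n : ℝ) ^ (5 / 2 : ℝ) * Real.sqrt (v n)) := by
  intro h
  have hmu := H981.mu_pos
  apply Pool.Agent.H19.Saw.not_summable_br
  rw [← summable_nat_add_iff 1]
  have h1 := ((summable_nat_add_iff 2).mpr h).mul_left (Real.sqrt 8 * H981.mu)
  refine Summable.of_nonneg_of_le (fun n => ?_) (fun n => ?_) h1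
  · have := H981.one_le_br' (n + 1)
    positivity
  · exact br_le (n := n + 1) (by omega)

lemma freq7 {ε : ℝ} (hε : 0 < ε) : ∃ᶠ n : ℕ in atTop, (n : ℝ) ^ (-(7 + ε)) ≤ v n := by
  by_contra hcon
  rw [not_frequently] at hcon
  apply not_summable
  have hs : Summable (fun n : ℕ => (n : ℝ) ^ (-(1 + ε / 2))) := by
    rw [Real.summable_nat_rpow]
    linarith
  refine Summable.of_norm_bounded_eventually_nat hs ?_
  filter_upwards [hcon, eventually_ge_atTop 1] with n h1 hn
  push Not at h1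
  have hn0 : (0 : ℝ) < n := by exact_mod_cast hn
  rw [Real.norm_of_nonneg (by positivity)]
  have h2 : Real.sqrt (v n) ≤ (n : ℝ) ^ (-(7 + ε) / 2) := by
    rw [Real.sqrt_le_left (by positivity), ← Real.rpow_natCast, ← Real.rpow_mul hn0.le]
    refine h1.le.trans (le_of_eq ?_)
    congr 1
    push_cast
    ring
  calc (n : ℝ) ^ (5 / 2 : ℝ) * Real.sqrt (v n) ≤ (n : ℝ) ^ (5 / 2 : ℝ) * (n : ℝ) ^ (-(7 + ε) / 2) := by
        gcongr
    _ = _ := by
        rw [← Real.rpow_add hn0]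
        congr 1
        ring

lemma tend_log : Tendsto (fun n : ℕ => Real.log (n : ℝ)) atTop atTop :=
  Real.tendsto_log_atTop.comp tendsto_natCast_atTop_atTop

/-- windows -/
lemma windows : ∃ K : ℝ, 0 < K ∧ ∀ a ε : ℝ, 0 ≤ a → 0 < ε → ∃ᶠ n : ℕ in atTop, ∀ m : ℕ,
    |(m : ℝ) - n| ≤ a * Real.sqrt n → (m : ℝ) ^ (-(7 + K * a + ε)) ≤ v m := by
  obtain ⟨K, S⟩ := sl
  have hK := S.hK
  obtain ⟨N, hN2, hN⟩ := Pool.Agent.K1H72.PL.w_steps S 0
  refine ⟨8 * K + 1, by linarith, fun a ε ha hε => ?_⟩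
  have e1 : ∀ᶠ n : ℕ in atTop, (4 * (a + 1)) ^ 2 ≤ (n : ℝ) :=
    tendsto_natCast_atTop_atTop.eventually_ge_atTop _
  have e2 : ∀ᶠ n : ℕ in atTop, (2 * (N : ℝ)) ≤ (n : ℝ) :=
    tendsto_natCast_atTop_atTop.eventually_ge_atTop _
  have e3 : ∀ᶠ n : ℕ in atTop, (2 * (7 + (8 * K + 1) * a + ε) * Real.log 2 / ε) ≤ Real.log n :=
    tend_log.eventually_ge_atTop _
  refine ((freq7 (show 0 < ε / 2 by linarith)).and_eventually (e1.and (e2.and e3))).mono ?_
  rintro n ⟨hg, h1, h2, h3⟩ m hm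
  have hN2' : (2 : ℝ) ≤ N := by exact_mod_cast hN2
  have hn4 : (4 : ℝ) ≤ n := by linarith
  have hn0 : (0 : ℝ) < n := by linarith
  have hs0 : 0 < Real.sqrt n := Real.sqrt_pos.mpr hn0
  have hss : Real.sqrt n * Real.sqrt n = n := Real.mul_self_sqrt hn0.le
  have hs1 : 4 * (a + 1) ≤ Real.sqrt n := by
    apply Real.le_sqrt_of_sq_le h1
  have hw : a * Real.sqrt n ≤ n / 4 := by nlinarith
  rw [abs_le] at hm
  have hmlow : (n : ℝ) / 2 ≤ m := by linarith [hm.1]
  have hm2 : (2 : ℝ) ≤ m := by linarith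
  have hm0 : (0 : ℝ) < m := by linarith
  have hmN : N ≤ m := by
    have : (N : ℝ) ≤ m := by linarith
    exact_mod_cast this
  have hnN : N ≤ n := by
    have : (N : ℝ) ≤ n := by linarith
    exact_mod_cast this
  have hln : 0 ≤ Real.log n := Real.log_nonneg (by linarith)
  have hvn : 0 < v n := S.pos n (by omega)
  have hvm : 0 < v m := S.pos m (by omega)
  have hw0 : ∀ k, Pool.Agent.K1H72.PL.w v 0 k = Real.log (v k) := fun k => by
    unfold Pool.Agent.K1H72.PL.w; ring
  have hdiff : Real.log (v n) - Real.log (v m) ≤ 8 * K * a * Real.log n := by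
    rcases le_total n m with hnm | hnm
    · obtain ⟨i, rfl⟩ := Nat.exists_eq_add_of_le hnm
      have hi : (i : ℝ) ≤ a * Real.sqrt n := by
        have := hm.2
        push_cast at this
        linarith
      have hin : i ≤ n := by
        have : (i : ℝ) ≤ n := by linarith
        exact_mod_cast this
      have h4 := hN n hnN i hin
      rw [hw0, hw0, abs_le] at h4
      have h5 : (2 * K + 2 * |(0 : ℝ)|) * ((i : ℝ) * (2 * Pool.Agent.R956.D2.f n)) ≤
          4 * K * a * Real.log n := by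
        rw [abs_zero, mul_zero, add_zero]
        unfold Pool.Agent.R956.D2.f
        calc 2 * K * ((i : ℝ) * (2 * (Real.log n / Real.sqrt n))) ≤
              2 * K * ((a * Real.sqrt n) * (2 * (Real.log n / Real.sqrt n))) := by gcongr
          _ = 4 * K * a * Real.log n := by field_simp; ring
      have h6 : 0 ≤ K * a * Real.log n := by positivity
      linarith [h4.1]
    · obtain ⟨i, hi⟩ := Nat.exists_eq_add_of_le hnm
      have hir : (n : ℝ) = m + i := by rw [hi]; push_cast; ring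
      have hi2 : (i : ℝ) ≤ a * Real.sqrt n := by linarith [hm.1]
      have him : i ≤ m := by
        have : (i : ℝ) ≤ m := by linarith
        exact_mod_cast this
      have h4 := hN m hmN i him
      rw [← hi, hw0, hw0, abs_le] at h4
      have h5 : (2 * K + 2 * |(0 : ℝ)|) * ((i : ℝ) * (2 * Pool.Agent.R956.D2.f m)) ≤
          8 * K * a * Real.log n := by
        rw [abs_zero, mul_zero, add_zero]
        unfold Pool.Agent.R956.D2.f
        have hsm : Real.sqrt n / 2 ≤ Real.sqrt m := by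
          apply Real.le_sqrt_of_sq_le
          rw [div_pow, Real.sq_sqrt hn0.le]
          linarith
        have hlm : Real.log m ≤ Real.log n := Real.log_le_log hm0 (by
          rw [hir]
          have : (0 : ℝ) ≤ i := Nat.cast_nonneg i
          linarith)
        have hlm0 : 0 ≤ Real.log m := Real.log_nonneg (by linarith)
        have hq : Real.log m / Real.sqrt m ≤ Real.log n / (Real.sqrt n / 2) := by gcongr
        calc 2 * K * ((i : ℝ) * (2 * (Real.log m / Real.sqrt m))) ≤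
              2 * K * ((a * Real.sqrt n) * (2 * (Real.log n / (Real.sqrt n / 2)))) := by gcongr
          _ = 8 * K * a * Real.log n := by field_simp; ring
      linarith [h4.2]
  have h7 : -(7 + ε / 2) * Real.log n ≤ Real.log (v n) := by
    rw [← Real.log_rpow hn0]
    exact Real.log_le_log (by positivity) hg
  have h8 : Real.log n - Real.log 2 ≤ Real.log m := by
    rw [← Real.log_div hn0.ne' (by norm_num)]
    exact Real.log_le_log (by positivity) hmlow
  rw [div_le_iff₀ hε] at h3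
  rw [← Real.log_le_log_iff (by positivity) hvm, Real.log_rpow hm0]
  have hl2 : 0 ≤ Real.log 2 := Real.log_nonneg (by norm_num)
  have h9 : (7 + (8 * K + 1) * a + ε) * (Real.log n - Real.log 2) ≤
      (7 + (8 * K + 1) * a + ε) * Real.log m := by gcongr
  have h10 : 0 ≤ a * Real.log n := by positivity
  nlinarith

/-- **Theorem.** Let `μ` be the connective constant of `ℤ²` and `p_{2n}` the number of self-avoiding
polygons of perimeter `2n` up to translation, `g_n = log (p_{2n} / μ^(2n)) / log n`.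
(1) The series `∑ n^(5/2) (p_{2n} / μ^(2n))^(1/2)` diverges.
(2) There is `K` such that for all `a ≥ 0` and `ε > 0` there are infinitely many `n` with
`p_{2m} ≥ μ^(2m) m^(-7 - K a - ε)` for all `m` in `[n - a √n, n + a √n]`.
(3) Either `g_n` converges to a limit in `[-7, -3/2]`, or there are `x < y` with `-7 ≤ y ≤ -1` such
that for all exponents `θ` in `(x, y)`, all `B > 0` and each parity, infinitely many `n` of this
parity have `|p_{2n} / (μ^(2n) n^θ) - B| ≤ K (1 + |θ|) B log n / √n`. -/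
theorem result : ∃ μ : ℝ, 0 < μ ∧
    Tendsto (fun n : ℕ => (c n : ℝ) ^ ((1 : ℝ) / (n : ℝ))) atTop (𝓝 μ) ∧
    ¬ Summable (fun n : ℕ => (n : ℝ) ^ (5 / 2 : ℝ) * Real.sqrt (p n / μ ^ (2 * n))) ∧
    (∃ K : ℝ, 0 < K ∧ ∀ a ε : ℝ, 0 ≤ a → 0 < ε → ∃ᶠ n : ℕ in atTop, ∀ m : ℕ,
      |(m : ℝ) - n| ≤ a * Real.sqrt n → μ ^ (2 * m) * (m : ℝ) ^ (-(7 + K * a + ε)) ≤ p m) ∧
    ((∃ γ : ℝ, -7 ≤ γ ∧ γ ≤ -3 / 2 ∧ Tendsto (g μ) atTop (𝓝 γ)) ∨
      ∃ K x y : ℝ, 0 < K ∧ x < y ∧ -7 ≤ y ∧ y ≤ -1 ∧ ∀ θ ∈ Set.Ioo x y, ∀ B : ℝ, 0 < B →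
        ∀ i : ℕ, i ≤ 1 → PowerLaw μ K θ B i) := by
  refine ⟨H981.mu, H981.mu_pos, ?_, not_summable, ?_, ?_⟩
  · simp only [c_eq]
    exact H981.tendsto_root
  · obtain ⟨K, hK, h⟩ := windows
    refine ⟨K, hK, fun a ε ha hε => (h a ε ha hε).mono fun n hn m hm => ?_⟩
    have h1 := hn m hm
    have hmu := H981.mu_pos
    unfold v at h1
    rw [le_div_iff₀ (by positivity)] at h1
    linarith
  have hmu := H981.mu_pos
  obtain ⟨K0, S⟩ := sl
  have hK0 := S.hK
  obtain ⟨K1, hK1, h1⟩ := Pool.Agent.TH546.PC.point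
  obtain ⟨K3, hK3, h3⟩ := Pool.Agent.TH546.PC.log_sum
  have h1' : ∀ n : ℕ, 2 ≤ n → v n ≤ K1 / n := h1
  have h3' : ∀ n : ℕ, 2 ≤ n →
      ∑ j ∈ Finset.Icc 2 n, Real.sqrt j * v j ≤ (2 * K3) * Real.log n := by
    intro n hn
    have h4 : ∑ j ∈ Finset.Icc 2 n, Real.sqrt j * v j ≤
        ∑ j ∈ Finset.Icc 2 n, 2 * (Pool.Agent.W870.Pg.MW j * Pool.Agent.W870.Pg.Fp j) := by
      apply Finset.sum_le_sum
      intro j hj
      have hj2 := (Finset.mem_Icc.mp hj).1
      have a1 := Pool.Agent.W870.Pg.sqrt_le_two_MW hj2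
      have a2 : 0 < v j := S.pos j hj2
      have e : Pool.Agent.W870.Pg.Fp j = v j := rfl
      rw [e]
      nlinarith
    rw [← Finset.mul_sum] at h4
    have := h3 n hn
    linarith
  have h32 := Pool.Agent.K1H72.PL.freq32 S.pos (show 0 ≤ 2 * K3 by linarith) h3'
  have E := Pool.Agent.K1H72.PL.expo S h1' h32
  have eg : g H981.mu = Pool.Agent.R79.SW.ex v := rfl
  -- the exponents are frequently at least `-7 - ε`
  have hfreq : ∀ ε : ℝ, 0 < ε → ∃ᶠ n : ℕ in atTop, -(7 + ε) ≤ Pool.Agent.R79.SW.ex v n := by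
    intro ε hε
    refine ((freq7 hε).and_eventually (eventually_ge_atTop 2)).mono ?_
    rintro n ⟨hn, hn2⟩
    have hn1 : (1 : ℝ) < n := by exact_mod_cast (show 1 < n by omega)
    have hl : 0 < Real.log n := Real.log_pos hn1
    unfold Pool.Agent.R79.SW.ex
    rw [le_div_iff₀ hl, ← Real.log_rpow (by linarith)]
    exact Real.log_le_log (by positivity) hn
  have qe : ∀ (θ : ℝ) (n : ℕ), p n / (H981.mu ^ (2 * n) * (n : ℝ) ^ θ) = v n / (n : ℝ) ^ θ := by
    intro θ n
    unfold v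
    rw [div_div]
  have conv : ∀ {A θ B : ℝ} {i : ℕ}, A ≤ 8 * K0 + 6 → 0 < B → (∃ᶠ n : ℕ in atTop, n % 2 = i ∧
      |v n / (n : ℝ) ^ θ - B| ≤ A * (1 + |θ|) * B * Pool.Agent.R956.D2.f n) →
      PowerLaw H981.mu (8 * K0 + 6) θ B i := by
    intro A θ B i hA hB h
    refine h.mono fun n hn => ⟨hn.1, ?_⟩
    rw [qe]
    refine hn.2.trans ?_
    have hf := Pool.Agent.R956.D2.f_nonneg n
    have hθ := abs_nonneg θ
    have : A * (1 + |θ|) * B * Pool.Agent.R956.D2.f n ≤
        (8 * K0 + 6) * (1 + |θ|) * B * Pool.Agent.R956.D2.f n := by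
      apply mul_le_mul_of_nonneg_right _ hf
      apply mul_le_mul_of_nonneg_right _ hB.le
      apply mul_le_mul_of_nonneg_right hA (by positivity)
    exact this
  rcases E.2.2 with h | ⟨γ, hγ, h⟩ | ⟨x, y, hxy, hy, h⟩
  · exfalso
    have h4 := h.eventually_lt_atBot (-8)
    obtain ⟨n, hn1, hn2⟩ := ((hfreq 1 one_pos).and_eventually h4).exists
    linarith
  · left
    refine ⟨γ, ?_, hγ, by rw [eg]; exact h⟩
    by_contra hlt
    push Not at hlt
    have h4 := h.eventually_lt_const (show γ < (γ - 7) / 2 by linarith)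
    obtain ⟨n, hn1, hn2⟩ := ((hfreq (-(7 + γ) / 2) (by linarith)).and_eventually h4).exists
    linarith
  · right
    rcases le_or_gt (-7) y with hy7 | hy7
    · exact ⟨8 * K0 + 6, x, y, by linarith, hxy, hy7, hy, fun θ hθ B hB i hi =>
        conv le_rfl hB (h θ hθ B hB i hi)⟩
    · refine ⟨8 * K0 + 6, (x + y) / 2, -7, by linarith, by linarith, le_rfl, by norm_num,
        fun θ hθ B hB i hi => conv (A := 6 * K0 + 6) (by linarith) hB ?_⟩
      refine Pool.Agent.K1H72.PL.amp S hB (a := B / 2) (b := 2 * B) (by linarith) (by linarith)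
        ?_ ?_ hi
      · -- small values
        obtain ⟨c0, hc1, hc2⟩ : ∃ c0, c0 ∈ Set.Ioo x y ∧ c0 < θ :=
          ⟨(3 * x + y) / 4, ⟨by linarith, by linarith⟩, by
            have := hθ.1
            linarith⟩
        have h5 := h c0 hc1 1 one_pos 0 (by norm_num)
        have t1 : Tendsto (fun n : ℕ => (8 * K0 + 6) * (1 + |c0|) * 1 *
            Pool.Agent.R956.D2.f n) atTop (𝓝 0) := by
          simpa using Pool.Agent.R956.D2.f_tendsto.const_mul ((8 * K0 + 6) * (1 + |c0|) * 1)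
        have t2 : Tendsto (fun n : ℕ => 2 * (n : ℝ) ^ (-(θ - c0))) atTop (𝓝 (2 * 0)) :=
          ((tendsto_rpow_neg_atTop (show 0 < θ - c0 by linarith)).comp
            tendsto_natCast_atTop_atTop).const_mul 2
        rw [mul_zero] at t2
        refine (h5.and_eventually ((t1.eventually_lt_const one_pos).and
          ((t2.eventually_lt_const (show (0 : ℝ) < B / 2 by linarith)).and
            (eventually_ge_atTop 2)))).mono ?_
        rintro n ⟨⟨-, h6⟩, h7, h8, hn⟩
        have hn0 : (0 : ℝ) < n := by exact_mod_cast (show 0 < n by omega)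
        rw [abs_le] at h6
        have h9 : v n / (n : ℝ) ^ c0 ≤ 2 := by linarith [h6.2]
        rw [div_le_iff₀ (by positivity)] at h9
        calc v n / (n : ℝ) ^ θ ≤ (2 * (n : ℝ) ^ c0) / (n : ℝ) ^ θ := by gcongr
          _ = 2 * (n : ℝ) ^ (-(θ - c0)) := by
              rw [mul_div_assoc, ← Real.rpow_sub hn0]
              congr 2
              ring
          _ ≤ _ := h8.le
      · -- large values
        have hθ7 : θ < -7 := hθ.2
        obtain ⟨δ, hδ⟩ : ∃ δ : ℝ, δ = (-7 - θ) / 2 := ⟨_, rfl⟩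
        have hδ0 : 0 < δ := by rw [hδ]; linarith
        have t3 : Tendsto (fun n : ℕ => (n : ℝ) ^ δ) atTop atTop :=
          (tendsto_rpow_atTop hδ0).comp tendsto_natCast_atTop_atTop
        refine ((freq7 hδ0).and_eventually ((t3.eventually_ge_atTop (2 * B)).and
          (eventually_ge_atTop 2))).mono ?_
        rintro n ⟨h6, h7, hn⟩
        have hn0 : (0 : ℝ) < n := by exact_mod_cast (show 0 < n by omega)
        rw [le_div_iff₀ (by positivity)]
        calc 2 * B * (n : ℝ) ^ θ ≤ (n : ℝ) ^ δ * (n : ℝ) ^ θ := by gcongr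
          _ = (n : ℝ) ^ (-(7 + δ)) := by
              rw [← Real.rpow_add hn0]
              congr 1
              rw [hδ]; ring
          _ ≤ v n := h6

end Pool.Agent.Results.MP_376faf_co.PolynomialExponents
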