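import Pool.Agent.H21.T3.Poly2
import Pool.Agent.H12.T3.DET
import Pool.Agent.H12.T3.LSU
import Pool.Agent.H43.T3.DEG
import Pool.Agent.H4.T3.INJ
import Pool.Agent.H4.T3.ENT
import Pool.Agent.H66.T3.MUS

/-!
Self-avoiding polygons on the square lattice: all but a proportion `exp (K (log n)^2 - (log n)^4)` of
the polygons of perimeter `2n` visit at most `49 / 50` of the vertices of every box whose side is at
least `C (log n)^2`; so the asymptotic form of the number of the polygons is the asymptotic form of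
the number of these locally sparse polygons.
-/

set_option autoImplicit false

namespace Pool.Agent.Results.MP_376faf_co.SparsePolygonsCarry

open Filter Topology

/-- The closed self-avoiding loops with `2n` steps through the origin (as in the frozen statement):
the polygons of perimeter `2n` up to translation with a starting point and an orientation. -/
def loops (n : ℕ) : Set (ZMod (2 * n) → ℤ × ℤ) :=
  {f | f 0 = 0 ∧ Function.Injective f ∧
    ∀ i : ZMod (2 * n), |(f (i + 1)).1 - (f i).1| + |(f (i + 1)).2 - (f i).2| = 1}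

/-- The number of the vertices of the loop `f` in the box of side `m` with lower left corner
`(i, j)`, i.e. among the `m ^ 2` vertices `v` with `i ≤ v.1 < i + m` and `j ≤ v.2 < j + m`. -/
noncomputable def visits (i j : ℤ) (m : ℕ) {n : ℕ} (f : ZMod (2 * n) → ℤ × ℤ) : ℕ :=
  {v : ℤ × ℤ | v ∈ Set.range f ∧ (i ≤ v.1 ∧ v.1 < i + m) ∧ (j ≤ v.2 ∧ v.2 < j + m)}.ncard

/-- The loops which visit at most `49 / 50` of the `m ^ 2` vertices of every box of side
`m ≥ C (log n)^2`. -/
def sparse (C : ℝ) (n : ℕ) : Set (ZMod (2 * n) → ℤ × ℤ) :=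
  {f ∈ loops n | ∀ (i j : ℤ) (m : ℕ), C * Real.log n ^ 2 ≤ m →
    (visits i j m f : ℝ) ≤ 49 / 50 * (m : ℝ) ^ 2}

/-- **Theorem.** There are constants `C` and `K` such that, for the self-avoiding polygons of
perimeter `2n` on the square lattice: (1) for every `n ≥ 3`, all the polygons except a proportion of
at most `exp (K (log n)^2 - (log n)^4)` visit at most `49 / 50` of the `m ^ 2` vertices of every box of
every side `m ≥ C (log n)^2`; (2) for every function `g` the number of the polygons
(`(loops n).ncard / (4 n)`) is asymptotically equivalent to `g` if and only if the number of the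
polygons in (1) is; in particular for `g n = A μ ^ (2 n) n ^ (- 5 / 2)`. -/
theorem result : ∃ C K : ℝ, 1 ≤ C ∧ 0 ≤ K ∧
    (∀ n : ℕ, 3 ≤ n →
      (1 - Real.exp (K * Real.log n ^ 2 - Real.log n ^ 4)) * (loops n).ncard ≤
        (sparse C n).ncard) ∧
    (∀ g : ℕ → ℝ,
      Asymptotics.IsEquivalent atTop (fun n : ℕ => ((loops n).ncard : ℝ) / (4 * (n : ℝ))) g ↔
      Asymptotics.IsEquivalent atTop
        (fun n : ℕ => ((sparse C n).ncard : ℝ) / (4 * (n : ℝ))) g) := by
  have hENT := Pool.Agent.H4.T3.t_ENT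
  have hDEG := Pool.Agent.H43.T3.t_DEG
  have hLSU := Pool.Agent.H12.T3.t_LSU (Pool.Agent.H4.T3.t_INJ (Pool.Agent.H12.T3.t_DET hDEG))
  obtain ⟨C, K, hC, hK, h⟩ := Pool.Agent.H21.T3.poly_main hENT hLSU Pool.Agent.H66.T3.t_MUS
  have hfin : ∀ n : ℕ, 3 ≤ n → (loops n).Finite := fun n hn =>
    Pool.Agent.H21.T3.pg_finite (by omega)
  have hp : ∀ n : ℕ, 3 ≤ n →
      (1 - Real.exp (K * Real.log n ^ 2 - Real.log n ^ 4)) * (loops n).ncard ≤
        (sparse C n).ncard := by
    intro n hn
    have h3 : (({f ∈ loops n | ∃ (i j : ℤ) (m : ℕ), C * Real.log n ^ 2 ≤ m ∧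
        49 / 50 * (m : ℝ) ^ 2 < visits i j m f}.ncard : ℕ) : ℝ) ≤
        Real.exp (K * Real.log n ^ 2 - Real.log n ^ 4) * (loops n).ncard := (h n hn).1
    have h4 : loops n ⊆ {f ∈ loops n | ∃ (i j : ℤ) (m : ℕ), C * Real.log n ^ 2 ≤ m ∧
        49 / 50 * (m : ℝ) ^ 2 < visits i j m f} ∪ sparse C n := by
      intro f hf
      by_cases h : ∃ (i j : ℤ) (m : ℕ), C * Real.log n ^ 2 ≤ m ∧
        49 / 50 * (m : ℝ) ^ 2 < visits i j m f
      · exact Or.inl ⟨hf, h⟩
      · push Not at h
        exact Or.inr ⟨hf, h⟩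
    have h5 : (loops n).ncard ≤ {f ∈ loops n | ∃ (i j : ℤ) (m : ℕ), C * Real.log n ^ 2 ≤ m ∧
        49 / 50 * (m : ℝ) ^ 2 < visits i j m f}.ncard + (sparse C n).ncard :=
      (Set.ncard_le_ncard h4 (((hfin n hn).subset fun f hf => hf.1).union
        ((hfin n hn).subset fun f hf => hf.1))).trans (Set.ncard_union_le _ _)
    have h6 : ((loops n).ncard : ℝ) ≤ (({f ∈ loops n | ∃ (i j : ℤ) (m : ℕ),
        C * Real.log n ^ 2 ≤ m ∧ 49 / 50 * (m : ℝ) ^ 2 < visits i j m f}.ncard : ℕ) : ℝ) +
        ((sparse C n).ncard : ℝ) := by exact_mod_cast h5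
    linarith
  refine ⟨C, K, hC, hK, hp, ?_⟩
  -- the two numbers are equivalent
  have hpos : ∀ n : ℕ, 3 ≤ n → (0 : ℝ) < ((loops n).ncard : ℝ) := fun n hn => (h n hn).2
  have hle : ∀ n : ℕ, 3 ≤ n → ((sparse C n).ncard : ℝ) ≤ ((loops n).ncard : ℝ) := by
    intro n hn
    have h3 : sparse C n ⊆ loops n := fun f hf => hf.1
    exact_mod_cast Set.ncard_le_ncard h3 (hfin n hn)
  have heps : Tendsto (fun n : ℕ => Real.exp (K * Real.log (n : ℝ) ^ 2 - Real.log (n : ℝ) ^ 4))
      atTop (𝓝 0) := by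
    apply Real.tendsto_exp_atBot.comp
    have h1 : Tendsto (fun n : ℕ => Real.log (n : ℝ)) atTop atTop :=
      Real.tendsto_log_atTop.comp tendsto_natCast_atTop_atTop
    rw [tendsto_atBot]
    intro B
    filter_upwards [h1.eventually_ge_atTop (K + |B| + 1)] with n hn
    have hB := abs_nonneg B
    have hB2 := neg_abs_le B
    set x := Real.log (n : ℝ) with hx
    have hx1 : 1 ≤ x := by linarith
    have hx2 : x ≤ x ^ 2 := by nlinarith
    have hx3 : K + |B| ≤ x ^ 2 := by linarith
    have hx4 : (K + |B|) * x ^ 2 ≤ x ^ 2 * x ^ 2 :=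
      mul_le_mul_of_nonneg_right hx3 (by positivity)
    nlinarith
  have hlim : Tendsto (fun n : ℕ => ((sparse C n).ncard : ℝ) / ((loops n).ncard : ℝ)) atTop
      (𝓝 1) := by
    have h1 : Tendsto (fun n : ℕ => 1 -
        Real.exp (K * Real.log (n : ℝ) ^ 2 - Real.log (n : ℝ) ^ 4)) atTop (𝓝 1) := by
      simpa using heps.const_sub 1
    refine tendsto_of_tendsto_of_tendsto_of_le_of_le' h1 tendsto_const_nhds ?_ ?_
    · filter_upwards [eventually_ge_atTop 3] with n hn
      rw [le_div_iff₀ (hpos n hn)]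
      exact hp n hn
    · filter_upwards [eventually_ge_atTop 3] with n hn
      rw [div_le_one (hpos n hn)]
      exact hle n hn
  have heq : Asymptotics.IsEquivalent atTop
      (fun n : ℕ => ((sparse C n).ncard : ℝ) / (4 * (n : ℝ)))
      (fun n : ℕ => ((loops n).ncard : ℝ) / (4 * (n : ℝ))) := by
    rw [Asymptotics.isEquivalent_iff_tendsto_one]
    · refine hlim.congr' ?_
      filter_upwards [eventually_ge_atTop 3] with n hn
      have hn0 : (0 : ℝ) < n := by exact_mod_cast (by omega : 0 < n)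
      have h2 := hpos n hn
      simp only [Pi.div_apply]
      field_simp
    · filter_upwards [eventually_ge_atTop 3] with n hn
      have hn0 : (0 : ℝ) < n := by exact_mod_cast (by omega : 0 < n)
      have h2 := hpos n hn
      positivity
  intro g
  exact ⟨fun h1 => heq.trans h1, fun h1 => heq.symm.trans h1⟩

end Pool.Agent.Results.MP_376faf_co.SparsePolygonsCarry
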